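import Pool.Agent.Q97.RD.Lq

/-!
# Joint moments of zeta and its derivative in the full range of exponents

For real `β > 0` let `M = ∫ |ζ(1/2+it)|^β exp(-((t-T)/U)²) dt`. For every real `0 < q < 1 + β`
the joint moment `∫ |ζ'/ζ|^q |ζ|^β exp(-((t-T)/U)²) dt` on the critical line (that is, the moment of `|ζ'|^q |ζ|^(β-q)`, in
which the exponent of `|ζ|` may be negative, down to `-1`) is of the exact order `(log T)^q M`, uniformly in
`1 ≤ U ≤ T / log T`, with the constant `1/2 - ε` to the power `q` in the lower bound. The range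
is the full one: for `q ≥ 1 + β` the integral is infinite as soon as the line has one
simple zero. With `β = 2k`, `q = 2h` this is the range `h < k + 1/2` of the conjectures on joint moments of characteristic
polynomials and of the derivative of Hardy's function.

Proof: the zeros at distance `x / log T` carry at most `C x` of the maximal function of `ζ` over discs
of radius `1 / log T` (Jensen's inequality, Gabriel's convexity theorem, area means), at such points
`|ζ|` is smaller by the factor `x` than its maximum, and Landau's lemma bounds the logarithmic derivative.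
-/

set_option autoImplicit false

open MeasureTheory Filter Set
open scoped ENNReal

namespace Pool.Agent.Results.MP_973905_nt.LogDerivativeMoments

noncomputable section

/-- the point `1/2 + it` -/
def pt (t : ℝ) : ℂ := 1 / 2 + t * Complex.I

/-- the Gaussian window of width `U` at `T` -/
def window (T U t : ℝ) : ℝ := Real.exp (-((t - T) / U) ^ 2)

/-- `|ζ(1/2 + it)|^β` times the window -/
def dens (β T U t : ℝ) : ℝ := ‖riemannZeta (pt t)‖ ^ β * window T U t

/-- the moment of order `β` -/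
def moment (β T U : ℝ) : ℝ := ∫ t, dens β T U t

/-- the joint moment: the integral of `|ζ'/ζ|^q |ζ|^β` with the window -/
def joint (q β T U : ℝ) : ℝ≥0∞ :=
  ∫⁻ t, ENNReal.ofReal (‖deriv riemannZeta (pt t) / riemannZeta (pt t)‖ ^ q * dens β T U t)

theorem pt_eq : pt = Q97.RD.pp := by
  funext t
  simp [pt, Q97.RD.pp]

theorem dens_eq (β T U : ℝ) : dens β T U = Q97.RD.zd β T U := by
  funext t
  unfold dens Q97.RD.zd
  rw [pt_eq]
  rfl

theorem moment_eq (β T U : ℝ) : moment β T U = Q97.RB.MB β T U (1 / 2) := by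
  unfold moment
  rw [dens_eq]
  rfl

theorem result (β : ℝ) (hβ : 0 < β) :
    (∀ᶠ T : ℝ in atTop, ∀ U : ℝ, 1 ≤ U → U ≤ T / Real.log T →
      Integrable (dens β T U) ∧ 0 < moment β T U) ∧
    (∀ q : ℝ, 0 < q → q < 1 + β → ∃ C : ℝ, 0 < C ∧
      ∀ᶠ T : ℝ in atTop, ∀ U : ℝ, 1 ≤ U → U ≤ T / Real.log T →
        joint q β T U ≤ ENNReal.ofReal (C * Real.log T ^ q * moment β T U)) ∧
    (∀ q : ℝ, 0 < q → ∀ ε : ℝ, 0 < ε → ε < 1 / 2 →
      ∀ᶠ T : ℝ in atTop, ∀ U : ℝ, 1 ≤ U → U ≤ T / Real.log T →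
        ENNReal.ofReal (((1 / 2 - ε) * Real.log T) ^ q * moment β T U) ≤ joint q β T U) ∧
    (∀ γ : ℝ, riemannZeta (pt γ) = 0 → deriv riemannZeta (pt γ) ≠ 0 →
      ∀ q : ℝ, 1 + β ≤ q → ∀ T U : ℝ, joint q β T U = ⊤) := by
  refine ⟨?_, fun q hq hqβ => ?_, fun q hq ε hε hε2 => ?_, fun γ h0 h1 q hqβ T U => ?_⟩
  · filter_upwards [Q97.RB.tilted hβ one_pos one_pos, eventually_ge_atTop 3] with T h1 hT U hU1 hU2
    have h : Q97.MM.Adm T U := ⟨hT, hU1, hU2⟩
    rw [dens_eq, moment_eq]
    exact ⟨(Q97.RD.zd_int hβ h).1, (h1 U h).1⟩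
  · obtain ⟨C, hC, h⟩ := Q97.RD.ld_upper hβ hq hqβ
    refine ⟨C, hC, ?_⟩
    filter_upwards [h, eventually_ge_atTop 3] with T h1 hT U hU1 hU2
    have h2 := h1 U ⟨hT, hU1, hU2⟩
    unfold joint
    rw [moment_eq, dens_eq, pt_eq]
    exact h2
  · filter_upwards [Q97.RD.ld_lower hβ hq hε hε2, eventually_ge_atTop 3] with T h1 hT U hU1 hU2
    have h2 := h1 U ⟨hT, hU1, hU2⟩
    unfold joint
    rw [moment_eq, dens_eq, pt_eq]
    exact h2
  · rw [pt_eq] at h0 h1
    unfold joint
    rw [dens_eq, pt_eq]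
    exact Q97.RD.ld_top hβ hqβ h0 h1 T U

end

end Pool.Agent.Results.MP_973905_nt.LogDerivativeMoments
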