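import Pool.Agent.Q286.MC.All

/-!
# Moments of zeta of every real order inside universality classes

Let `K` be a compact subset of the strip `1/2 < Re s < 1`, `f` a target of Voronin's theorem on `K` and `S ε K f` the
set of the real `t` with `sup_{s ∈ K} |ζ(s + it) - f(s)| < ε`.

1. For every real `β` (positive or negative) the integral of `|ζ(1/2 + it)|^β` over `S ε K f ∩ [T, T + H]` is at least
   `c H (log T)^(β²/4)`, the order of the conjecture, for all `T / (log T)^α ≤ H ≤ T`, `α < 1`, with `c > 0` uniform in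
   `|β| ≤ B`.
2. Large deviations inside the classes: for `|V| ≤ B log log T` the measure of the `t ∈ S ε K f ∩ [T, T + H]` with
   `|log |ζ(1/2 + it)| - V| ≤ η √(log log T)` is at least `c H exp (-V² / log log T)`.
3. For `0 ≤ β < 4`: zeta has no zero in the interior of the hull of `K` if and only if for all `ε` the returns
   (`f = ζ`) carry a `β`-th moment `≥ κ T (log T)^(β²/4)`; otherwise it is `≤ T^(1-δ)` for some `ε`, `δ`.
4. Equivalents of the Riemann hypothesis by moments of a single order `β ∈ [0, 4)`.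

No hypothesis is assumed.
-/

set_option autoImplicit false

open Complex Filter Set MeasureTheory Topology

namespace Pool.Agent.Results.MP_973905_nt.MomentsInClasses

/-- the hull of `K`: the union of `K` and of the bounded components of its complement -/
def hull (K : Set ℂ) : Set ℂ :=
  K ∪ {z | z ∉ K ∧ Bornology.IsBounded (connectedComponentIn Kᶜ z)}

/-- `f` extends from `K` to a function `g` which is continuous on the hull of `K` and holomorphic in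
the interior of the hull, and on each component of the interior either free of zeros or
identically zero -/
def IsTarget (K : Set ℂ) (f : ℂ → ℂ) : Prop :=
  ∃ g : ℂ → ℂ, (∀ z ∈ K, g z = f z) ∧ ContinuousOn g (hull K) ∧
    DifferentiableOn ℂ g (interior (hull K)) ∧
    ∀ z ∈ interior (hull K),
      (∀ w ∈ connectedComponentIn (interior (hull K)) z, g w ≠ 0) ∨
      (∀ w ∈ connectedComponentIn (interior (hull K)) z, g w = 0)

/-- `S ε K f`: the real `t` with `sup_{z ∈ K} |ζ(z + it) - f(z)| < ε` -/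
def S (ε : ℝ) (K : Set ℂ) (f : ℂ → ℂ) : Set ℝ :=
  {t : ℝ | ∃ δ < ε, ∀ z ∈ K, ‖riemannZeta (z + t * I) - f z‖ ≤ δ}

/-- the moment of order `β` over `A ∩ [0, T]` -/
noncomputable def M (β : ℝ) (A : Set ℝ) (T : ℝ) : ℝ :=
  ∫ t in A ∩ Icc 0 T, ‖riemannZeta (1 / 2 + t * I)‖ ^ β

theorem result :
    -- (1) moments of every real order over the classes, in short intervals
    (∀ (K : Set ℂ) (f : ℂ → ℂ) (ε B : ℝ), IsCompact K → (∀ z ∈ K, 1 / 2 < z.re ∧ z.re < 1) →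
      IsTarget K f → 0 < ε → 0 ≤ B → ∃ c : ℝ, 0 < c ∧ ∀ α : ℝ, 0 ≤ α → α < 1 →
      ∀ᶠ T : ℝ in atTop, ∀ H : ℝ, T / Real.log T ^ α ≤ H → H ≤ T → ∀ β : ℝ, |β| ≤ B →
        ENNReal.ofReal (c * H * Real.log T ^ (β ^ 2 / 4)) ≤
          ∫⁻ t in S ε K f ∩ Icc T (T + H), ENNReal.ofReal (‖riemannZeta (1 / 2 + t * I)‖ ^ β)) ∧
    -- (2) large deviations inside the classes
    (∀ (K : Set ℂ) (f : ℂ → ℂ) (ε B η : ℝ), IsCompact K → (∀ z ∈ K, 1 / 2 < z.re ∧ z.re < 1) →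
      IsTarget K f → 0 < ε → 0 ≤ B → 0 < η → ∃ c : ℝ, 0 < c ∧ ∀ α : ℝ, 0 ≤ α → α < 1 →
      ∀ᶠ T : ℝ in atTop, ∀ H : ℝ, T / Real.log T ^ α ≤ H → H ≤ T →
      ∀ V : ℝ, |V| ≤ B * Real.log (Real.log T) →
        c * H * Real.exp (-(V ^ 2 / Real.log (Real.log T))) ≤
          volume.real {t ∈ S ε K f ∩ Icc T (T + H) | riemannZeta (1 / 2 + t * I) ≠ 0 ∧
            |Real.log ‖riemannZeta (1 / 2 + t * I)‖ - V| ≤ η * Real.sqrt (Real.log (Real.log T))}) ∧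
    -- (3) the local criterion
    (∀ K : Set ℂ, IsCompact K → (∀ z ∈ K, 1 / 2 < z.re ∧ z.re < 1) → ∀ β : ℝ, 0 ≤ β → β < 4 →
      ((∀ z ∈ interior (hull K), riemannZeta z ≠ 0) ↔
        ∀ ε : ℝ, 0 < ε → ∃ κ : ℝ, 0 < κ ∧ ∃ T₀ : ℝ, ∀ T ≥ T₀,
          κ * (T * Real.log T ^ (β ^ 2 / 4)) ≤ M β (S ε K riemannZeta) T) ∧
      (∀ z₀ ∈ interior (hull K), riemannZeta z₀ = 0 →
        ∃ ε δ : ℝ, 0 < ε ∧ 0 < δ ∧ ∃ T₀ : ℝ, ∀ T ≥ T₀, M β (S ε K riemannZeta) T ≤ T ^ (1 - δ))) ∧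
    -- (4) the Riemann hypothesis
    (∀ β : ℝ, 0 ≤ β → β < 4 → [RiemannHypothesis,
      ∀ K : Set ℂ, IsCompact K → (∀ z ∈ K, 1 / 2 < z.re ∧ z.re < 1) → ∀ ε : ℝ, 0 < ε →
        ∃ κ : ℝ, 0 < κ ∧ ∃ T₀ : ℝ, ∀ T ≥ T₀,
          κ * (T * Real.log T ^ (β ^ 2 / 4)) ≤ M β (S ε K riemannZeta) T,
      ∀ (z₀ : ℂ) (r : ℝ), 0 < r → (∀ z ∈ Metric.closedBall z₀ r, 1 / 2 < z.re ∧ z.re < 1) →
        ∀ ε : ℝ, 0 < ε → ∀ δ : ℝ, 0 < δ → ∀ T₀ : ℝ, ∃ T ≥ T₀,
          T ^ (1 - δ) < M β (S ε (Metric.closedBall z₀ r) riemannZeta) T].TFAE) := by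
  refine ⟨fun K f ε B hK hKs hf hε hB => ?_, fun K f ε B η hK hKs hf hε hB hη => ?_,
    fun K hK hKs β h0 h4 => ⟨?_, fun z₀ hz₀ hζ => ?_⟩, fun β h0 h4 => ?_⟩
  · exact Pool.Agent.Q286.MC.mom_out Pool.Agent.Q286.MC.a_MO K f ε B hK hKs hf hε hB
  · exact Pool.Agent.Q286.MC.ld_out Pool.Agent.Q286.MC.a_LD K f ε B η hK hKs hf hε hB hη
  · exact Pool.Agent.Q286.MC.loc Pool.Agent.Q286.MC.a_MO Pool.Agent.Q34.MC.Rarem.rarem hK hKs h0 h4
  · exact Pool.Agent.Q286.MC.up0 Pool.Agent.Q34.MC.Rarem.rarem hK hKs hz₀ hζ h0 h4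
  · exact Pool.Agent.Q286.MC.rh_b Pool.Agent.Q286.MC.a_MO Pool.Agent.Q34.MC.Rarem.rarem h0 h4

end Pool.Agent.Results.MP_973905_nt.MomentsInClasses
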