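import Pool.Agent.Q255.FM.Num4
import Pool.Agent.Q255.FM.Ln4

set_option autoImplicit false

/-!
MP_973905_nt, `k = 1/n`: unconditionally, the moment of order `2k = 2/n` of zeta on the line
`Re s = 1/2 + c / log T` is given by the diagonal prediction up to an error that is exponentially
small in `c`, with an absolute constant; also for short intervals.
-/

namespace Pool.Agent.Results.MP_973905_nt.NearLineRate

open Filter MeasureTheory

/-- `a(1/n) / Γ(1 + 1/n²)`, where
`a(k) = ∏_p (1 - 1/p)^{k²} ∑_m (Γ(k + m) / (Γ(k) m!))² p^{-m}` -/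
noncomputable def b (n : ℕ) : ℝ :=
  (∏' p : Nat.Primes, ((1 - 1 / (p : ℝ)) ^ (1 / (n : ℝ) ^ 2) *
    ∑' m : ℕ, (Real.Gamma (1 / (n : ℝ) + m) / (Real.Gamma (1 / (n : ℝ)) * (m.factorial : ℝ))) ^ 2 *
      (1 / (p : ℝ)) ^ m)) / Real.Gamma (1 + 1 / (n : ℝ) ^ 2)

/-- `F_n(c) = n^{-2} ∫_0^1 u^{1/n² - 1} e^{-2cu} du` -/
noncomputable def F (n : ℕ) (c : ℝ) : ℝ :=
  1 / (n : ℝ) ^ 2 * ∫ u in (0 : ℝ)..1, u ^ (1 / (n : ℝ) ^ 2 - 1) * Real.exp (-(2 * c * u))

/-- the mean value of `|ζ(σ + it)|^β` over `T ≤ t ≤ T + U` -/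
noncomputable def mean (β σ T U : ℝ) : ℝ :=
  1 / U * ∫ t in T..(T + U), ‖riemannZeta (σ + t * Complex.I)‖ ^ β

lemma lc_gamma (κ : ℝ) (hκ : 0 < κ) (m : ℕ) :
    Pool.Agent.H306R2.lc κ m = Real.Gamma (κ + m) / (Real.Gamma κ * (m.factorial : ℝ)) := by
  have hG : Real.Gamma κ ≠ 0 := (Real.Gamma_pos_of_pos hκ).ne'
  unfold Pool.Agent.H306R2.lc
  induction m with
  | zero => simp [hG]
  | succ m ih =>
    rw [Finset.prod_range_succ, ih]
    have h1 : κ + ((m + 1 : ℕ) : ℝ) = (κ + m) + 1 := by push_cast; ring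
    have h2 : κ + (m : ℝ) ≠ 0 := by positivity
    rw [h1, Real.Gamma_add_one h2, Nat.factorial_succ]
    have h3 : (m.factorial : ℝ) ≠ 0 := by exact_mod_cast m.factorial_ne_zero
    have h4 : (m : ℝ) + 1 ≠ 0 := by positivity
    push_cast
    field_simp

lemma sq_eq (n : ℕ) : (1 / (n : ℝ)) ^ 2 = 1 / (n : ℝ) ^ 2 := by rw [div_pow, one_pow]

lemma AA_eq {n : ℕ} (hn : 0 < n) : Pool.Agent.Q255.FM.AA n = b n := by
  unfold Pool.Agent.Q255.FM.AA b Pool.Agent.H306R2.aF
  rw [sq_eq, add_comm]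
  congr 1
  refine tprod_congr fun p => ?_
  congr 1
  refine tsum_congr fun m => ?_
  rw [lc_gamma _ (by positivity)]

lemma F_eq {n : ℕ} (hn : 0 < n) (c : ℝ) : Pool.Agent.Q255.FM.FF n c = F n c := by
  rw [Pool.Agent.Q255.FM.FF_eq hn, F, sq_eq]

/-- from the two-sided bound to the normalised form -/
lemma normalise {X A L U lo hi f e : ℝ} (hA : 0 < A) (hU : 0 < U) (hL : 0 < L)
    (h1 : lo * (A * (U * L)) ≤ X) (h2 : X ≤ hi * (A * (U * L))) (hlo : f - e ≤ lo) (hhi : hi ≤ f + e) :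
    |1 / U * X / (A * L) - f| ≤ e := by
  have hp : 0 < A * (U * L) := by positivity
  have e1 : 1 / U * X / (A * L) = X / (A * (U * L)) := by field_simp
  rw [e1, abs_le]
  constructor
  · have : f - e ≤ X / (A * (U * L)) := by
      rw [le_div_iff₀ hp]
      exact (mul_le_mul_of_nonneg_right hlo hp.le).trans h1
    linarith
  · have : X / (A * (U * L)) ≤ f + e := by
      rw [div_le_iff₀ hp]
      exact h2.trans (mul_le_mul_of_nonneg_right hhi hp.le)
    linarith

open Pool.Agent.Q255.FM in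
lemma zero_form {n : ℕ} (hn : 2 ≤ n) {β κ κ' C' c : ℝ} (hβ : 1 < β) (hc : 0 < c) (hC' : 1 ≤ C')
    (hκ : 0 ≤ κ) (hκκ : κ < κ')
    (hloc' : ∀ᶠ q : ℝ × ℝ × ℝ in F1 β, VV (fJ n q.2.2 q.2.1) (2 / (n : ℝ)) (1 / 2) ≤ C' * UU n q.1)
    (hloc : NearB n β κ) :
    ∀ᶠ T : ℝ in atTop, |mean (2 / (n : ℝ)) (1 / 2 + c / Real.log T) 0 T /
      (b n * Real.log T ^ (1 / (n : ℝ) ^ 2)) - F n c| ≤ κ' * Real.exp (-(2 * c / n)) := by
  have hn' : 0 < n := by omega
  have hA := AA_pos hn'
  have hE := Real.exp_pos (-(2 * c / n))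
  have h := near_zero hn (ε := (κ' - κ) * Real.exp (-(2 * c / n))) hβ hc hC' hκ
    (mul_pos (by linarith) hE) hloc' hloc
  have e0 : Real.exp (-(2 / (n : ℝ) * c)) = Real.exp (-(2 * c / n)) := by congr 1; ring
  filter_upwards [h, eventually_gt_atTop 1] with T hT hT1
  have hT0 : 0 < T := by linarith
  have hl : 0 < Real.log T := Real.log_pos hT1
  have hL : 0 < Real.log T ^ (1 / (n : ℝ) ^ 2) := Real.rpow_pos_of_pos hl _
  obtain ⟨r1, r2⟩ := hT
  rw [sq_eq] at r1 r2
  unfold mean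
  rw [← AA_eq hn', ← F_eq hn', zero_add]
  have e1 : ∫ t in (0 : ℝ)..T, ‖riemannZeta (((1 / 2 + c / Real.log T : ℝ) : ℂ) + t * Complex.I)‖ ^
      (2 / (n : ℝ)) = MX n (1 / 2 + c / Real.log T) T := rfl
  rw [e1]
  refine normalise hA hT0 hL r1 r2 ?_ ?_
  · unfold loF; rw [e0]; linarith
  · unfold hiF; rw [e0]; linarith

open Pool.Agent.Q255.FM in
lemma kd2 : kd 2 (2001 / 2000) (11 / 5) < 1.509 := by
  have h2 : (2 : ℝ) / ((2 : ℕ) : ℝ) = 1 := by norm_num
  unfold kd jd
  rw [h2]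
  have g3 : (1 : ℝ) * (11 / 5) * (2001 / 2000) = 11 / 5 * (2001 / 2000) := by norm_num
  have g4 : -((1 : ℝ) * (11 / 5 + 11 / 5)) = -(22 / 5) := by norm_num
  have g5 : -((1 : ℝ) * (11 / 5)) = -(11 / 5) := by norm_num
  rw [g3, g4, g5]
  have p3 := Real.exp_pos (11 / 5 * (2001 / 2000))
  have p4 := Real.exp_pos (-(22 / 5))
  have p5 := Real.exp_pos (-(11 / 5))
  have q3 := e22011
  have q4 := em44
  have q5 : Real.exp (-(11 / 5)) ≤ 0.110804 := by
    have h := exp_le_q (-(11 / 5)) 30 3 (110804 / 1000000) (by norm_num) (by decide +kernel)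
    push_cast at h
    norm_num at h ⊢
    linarith
  have r2 := f22
  have r3 := fm22
  have s2 := FF_nonneg (n := 2) (by norm_num) (11 / 5)
  have s3 := FF_nonneg (n := 2) (by norm_num) (-(11 / 5))
  generalize Real.exp (-(11 / 5)) = E5 at *
  generalize Real.exp (11 / 5 * (2001 / 2000)) = E3 at *
  generalize Real.exp (-(22 / 5)) = E4 at *
  generalize FF 2 (11 / 5) = F2 at *
  generalize FF 2 (-(11 / 5)) = F3 at *
  have t1 : E4 * E3 ≤ 0.012278 * 9.03495 := mul_le_mul q4 q3 p3.le (by norm_num)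
  have t2 : F2 + E4 * F3 ≤ 0.62523 + 0.012278 * 6.42211 := by
    have : E4 * F3 ≤ 0.012278 * 6.42211 := mul_le_mul q4 r3 s3 (by norm_num)
    linarith
  have t3 : (F2 + E4 * F3) / (1 - E4 * E3) ≤ 0.79194 := by
    rw [div_le_iff₀ (by norm_num at t1 ⊢; linarith)]
    norm_num at t1 t2 ⊢
    linarith
  have t30 : 0 ≤ (F2 + E4 * F3) / (1 - E4 * E3) := by
    apply div_nonneg (by positivity)
    norm_num at t1 ⊢
    linarith
  generalize (F2 + E4 * F3) / (1 - E4 * E3) = J at *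
  have t4 : E3 * J ≤ 9.03495 * 0.79194 := mul_le_mul q3 t3 t30 (by norm_num)
  have t5 : E5 * (E3 * J + F3) ≤ 0.110804 * (9.03495 * 0.79194 + 6.42211) :=
    mul_le_mul q5 (by linarith) (by positivity) (by norm_num)
  refine lt_of_le_of_lt t5 (by norm_num)

open Pool.Agent.Q255.FM in
theorem result :
    -- all `n ≥ 2`, on the interval `[0, T]`, absolute constant
    (∀ n : ℕ, 2 ≤ n → 0 < b n ∧ ∀ c : ℝ, 0 < c → ∀ᶠ T : ℝ in atTop,
      |mean (2 / (n : ℝ)) (1 / 2 + c / Real.log T) 0 T / (b n * Real.log T ^ (1 / (n : ℝ) ^ 2)) - F n c| ≤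
        5.83 * Real.exp (-(2 * c / n))) ∧
    -- `k = 1/2`, the first moment, with a better constant
    (∀ c : ℝ, 0 < c → ∀ᶠ T : ℝ in atTop,
      |mean 1 (1 / 2 + c / Real.log T) 0 T / (b 2 * Real.log T ^ ((1 : ℝ) / 4)) - F 2 c| ≤
        1.51 * Real.exp (-c)) ∧
    -- intervals of length at least `T^α`, `α > 1/2`
    (∀ n : ℕ, 2 ≤ n → ∀ c α : ℝ, 0 < c → 1 / 2 < α → ∀ᶠ T : ℝ in atTop,
      ∀ U : ℝ, T ^ α ≤ U → U ≤ T →
        |mean (2 / (n : ℝ)) (1 / 2 + c / Real.log U) T U / (b n * Real.log U ^ (1 / (n : ℝ) ^ 2)) -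
          F n c| ≤ (1 + 8.4 * α / (2 * α - 1)) * Real.exp (-(2 * c / n))) := by
  refine ⟨fun n hn => ⟨?_, fun c hc => ?_⟩, fun c hc => ?_, fun n hn c α hc hα => ?_⟩
  · rw [← AA_eq (by omega)]; exact AA_pos (by omega)
  · have hn' : 0 < n := by omega
    have hloc := local_upper2 hn (β := 100001 / 100000) (c := 22 / 25 * n) (C := 4.829)
      (by positivity) (by norm_num) (hC_unif hn')
    exact zero_form hn (β := 100001 / 100000) (κ := 4.829 + 1) (κ' := 5.83) (C' := 4.829)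
      (by norm_num) hc (by norm_num) (by norm_num) (by norm_num) hloc (local_line hn (by norm_num) hloc)
  · have hloc := local_upper (n := 2) (by norm_num) (β := 2001 / 2000) (c := 6 / 5) (d := 11 / 5)
      (C := 2.14) (by norm_num) (by norm_num) (by norm_num) hC2
    have hN : NearB 2 (2001 / 2000) 1.509 :=
      local_line_d (by norm_num) (d := 11 / 5) (by norm_num) (by norm_num) kd2
    have h := zero_form (n := 2) (by norm_num) (β := 2001 / 2000) (κ := 1.509) (κ' := 1.51)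
      (C' := 2.14) (c := c) (by norm_num) hc (by norm_num) (by norm_num) (by norm_num) hloc hN
    filter_upwards [h] with T hT
    have e1 : (2 / ((2 : ℕ) : ℝ)) = 1 := by norm_num
    have e2 : 1 / ((2 : ℕ) : ℝ) ^ 2 = 1 / 4 := by norm_num
    have e3 : 2 * c / ((2 : ℕ) : ℝ) = c := by push_cast; ring
    rw [e1, e2, e3] at hT
    exact hT
  · have hn' : 0 < n := by omega
    have hn0 : (0 : ℝ) < n := by exact_mod_cast hn'
    have hA := AA_pos hn'
    have hα0 : 0 < α := by linarith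
    have h21 : 0 < 2 * α - 1 := by linarith
    have hx : 0 < 2 - 1 / α := by
      have : 2 - 1 / α = (2 * α - 1) / α := by field_simp
      rw [this]; positivity
    set β' : ℝ := 1 / α + 1 / 1000 * (2 - 1 / α) with hβ'
    have h1 : 1 < β' * α := by
      have : β' * α = 1 + 1 / 1000 * (2 - 1 / α) * α := by rw [hβ']; field_simp
      rw [this]
      have : 0 < 1 / 1000 * (2 - 1 / α) * α := by positivity
      linarith
    have h2 : 2 - β' = 999 / 1000 * ((2 * α - 1) / α) := by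
      rw [hβ']; field_simp; ring
    have h3 : β' < 2 := by
      have : 0 < 999 / 1000 * ((2 * α - 1) / α) := by positivity
      linarith
    have he : Real.exp 2 < 7.3891 := by
      have h := exp_le_q 2 30 2 (738909 / 100000) (by norm_num) (by decide +kernel)
      push_cast at h
      norm_num at h ⊢
      linarith
    have hC : (Real.exp 2 + 1) / (2 - β') < 8.398 * (α / (2 * α - 1)) := by
      rw [h2, div_lt_iff₀ (by positivity)]
      have e0 : (α / (2 * α - 1)) * ((2 * α - 1) / α) = 1 := by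
        rw [div_mul_div_comm, mul_comm α, div_self (by positivity)]
      have e : 8.398 * (α / (2 * α - 1)) * (999 / 1000 * ((2 * α - 1) / α)) = 8.398 * (999 / 1000) := by
        calc 8.398 * (α / (2 * α - 1)) * (999 / 1000 * ((2 * α - 1) / α)) =
            8.398 * (999 / 1000) * ((α / (2 * α - 1)) * ((2 * α - 1) / α)) := by ring
          _ = _ := by rw [e0, mul_one]
      rw [e]
      norm_num at he ⊢
      linarith
    have hr : 0 < α / (2 * α - 1) := by positivity
    have hloc := local_upper2 hn (β := β') (c := n) (C := 8.398 * (α / (2 * α - 1))) hn0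
      (by positivity) (hC_win hn' h3 hC)
    have hE := Real.exp_pos (-(2 * c / n))
    have e0 : Real.exp (-(2 / (n : ℝ) * c)) = Real.exp (-(2 * c / n)) := by congr 1; ring
    have h := near_win hn (α := α) (β := β') (c := c) (C := 8.398 * (α / (2 * α - 1)) + 1)
      (ε := 0.002 * (α / (2 * α - 1)) * Real.exp (-(2 * c / n))) hα0 h1 hc (by positivity)
      (by positivity) (local_line hn (by positivity) hloc)
    filter_upwards [h, (tendsto_rpow_atTop hα0).eventually_gt_atTop 1] with T hT hTα U hU hUT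
    have hU1 : 1 < U := lt_of_lt_of_le hTα hU
    have hU0 : 0 < U := by linarith
    have hl : 0 < Real.log U := Real.log_pos hU1
    have hL : 0 < Real.log U ^ (1 / (n : ℝ) ^ 2) := Real.rpow_pos_of_pos hl _
    obtain ⟨r1, r2⟩ := hT U hU hUT
    rw [sq_eq] at r1 r2
    unfold mean
    rw [← AA_eq hn', ← F_eq hn']
    have e5 : (1 + 8.4 * α / (2 * α - 1)) * Real.exp (-(2 * c / n)) =
        Real.exp (-(2 * c / n)) * (8.398 * (α / (2 * α - 1)) + 1) +
          0.002 * (α / (2 * α - 1)) * Real.exp (-(2 * c / n)) := by ring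
    rw [e5]
    refine normalise hA hU0 hL r1 r2 ?_ ?_
    · unfold loF; rw [e0]; linarith
    · unfold hiF; rw [e0]; linarith

end Pool.Agent.Results.MP_973905_nt.NearLineRate
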