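import Pool.Agent.Q97.RG.Pf

/-!
Moments of the Riemann zeta function of real order `β ≥ 1` at the distance `a / log T` from the
critical line: the exact range of the quotient for functions of exponential type.
-/

set_option autoImplicit false

open MeasureTheory Filter Topology Set

namespace Pool.Agent.Results.MP_973905_nt.SharpOffTheLine

/-- The moment of order `β` of `ζ` on the line `Re s = 1/2 + a / log T`, in the Gaussian window
with centre `T` and width `U`. -/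
noncomputable def J (β T U a : ℝ) : ℝ :=
  ∫ t : ℝ, ‖riemannZeta (((1 / 2 + a / Real.log T : ℝ) : ℂ) + t * Complex.I)‖ ^ β *
    Real.exp (-((t - T) / U) ^ 2)

/-- The mean of `|1 + r e^{iφ}| ^ β` over the circle. -/
noncomputable def S (β r : ℝ) : ℝ :=
  1 / (2 * Real.pi) * ∫ φ in (0 : ℝ)..(2 * Real.pi), ‖1 + r * Complex.exp (φ * Complex.I)‖ ^ β

/-- 1. Existence and positivity. 2. The lower bound for all real `β > 0` and all real `a`. 3. The
upper bound for all real `β ≥ 1` and all real `a`. 4. The constant of the upper bound for even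
exponents. All bounds are uniform over the windows with `1 ≤ U ≤ T / log T`. -/
theorem result :
    (∀ β : ℝ, 0 < β → ∀ a : ℝ, ∃ T₀ : ℝ, ∀ T : ℝ, T₀ ≤ T → ∀ U : ℝ, 1 ≤ U → U ≤ T / Real.log T →
      Integrable (fun t : ℝ => ‖riemannZeta (((1 / 2 + a / Real.log T : ℝ) : ℂ) +
        t * Complex.I)‖ ^ β * Real.exp (-((t - T) / U) ^ 2)) ∧ 0 < J β T U 0) ∧
    (∀ β : ℝ, 0 < β → ∀ a ε : ℝ, 0 < ε → ∃ T₀ : ℝ, ∀ T : ℝ, T₀ ≤ T → ∀ U : ℝ, 1 ≤ U →
      U ≤ T / Real.log T → Real.exp (-(β * a / 2)) - ε ≤ J β T U a / J β T U 0) ∧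
    (∀ β : ℝ, 1 ≤ β → ∀ a ε : ℝ, 0 < ε → ∃ T₀ : ℝ, ∀ T : ℝ, T₀ ≤ T → ∀ U : ℝ, 1 ≤ U →
      U ≤ T / Real.log T → J β T U a / J β T U 0 ≤ S β (Real.exp (-a)) / S β 1 + ε) ∧
    (∀ (k : ℕ) (a : ℝ), S (2 * k) (Real.exp (-a)) / S (2 * k) 1 =
      (∑ j ∈ Finset.range (k + 1), (k.choose j : ℝ) ^ 2 * Real.exp (-(2 * j * a))) /
        ((2 * k).choose k : ℝ)) := by
  have hadm : ∀ T U : ℝ, 3 ≤ T → 1 ≤ U → U ≤ T / Real.log T → Q97.MM.Adm T U := fun T U h1 h2 h3 =>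
    ⟨h1, h2, h3⟩
  have hS : ∀ β a : ℝ, S β (Real.exp (-a)) / S β 1 = Q97.RG.kon β a := by
    intro β a
    have hπ := Real.pi_pos
    unfold S Q97.RG.kon Q97.RG.kap
    rw [mul_div_mul_left _ _ (by positivity)]
  have hJ : ∀ β T U a : ℝ, J β T U a = Q97.RB.MB β T U (1 / 2 + a / Real.log T) := fun β T U a => rfl
  have hJ0 : ∀ β T U : ℝ, J β T U 0 = Q97.RB.MB β T U (1 / 2) := by
    intro β T U
    rw [hJ, zero_div, add_zero]
  have hpos : ∀ β : ℝ, 0 < β → ∃ T₀ : ℝ, 3 ≤ T₀ ∧ ∀ T : ℝ, T₀ ≤ T → ∀ U : ℝ, Q97.MM.Adm T U →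
      0 < Q97.RB.MB β T U (1 / 2) := by
    intro β hβ
    obtain ⟨T₀, h⟩ := eventually_atTop.mp (Q97.RB.F1 hβ 0 (show (0 : ℝ) < 1 / 4 by norm_num))
    refine ⟨max 3 T₀, le_max_left _ _, fun T hT U hA => ?_⟩
    have h1 := h T ((le_max_right _ _).trans hT) U hA
    rw [Q97.RB.GB_zero hβ hA] at h1
    have h2 : 0 < Q97.RB.JB β T U 0 := by linarith [(abs_le.mp h1).2]
    unfold Q97.RB.JB at h2
    rw [zero_div, add_zero] at h2
    have hH := Q97.RB.HB_pos hβ hA (x := 1 / 2) (by norm_num) (by norm_num)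
    have hT0 : 0 < T := by linarith [hA.1]
    have h3 := (div_pos_iff_of_pos_right hH).mp h2
    exact (mul_pos_iff_of_pos_left (Real.rpow_pos_of_pos hT0 _)).mp h3
  refine ⟨fun β hβ a => ?_, fun β hβ a ε hε => ?_, fun β hβ a ε hε => ?_, fun k a => ?_⟩
  · obtain ⟨T₁, h3, h1⟩ := hpos β hβ
    obtain ⟨T₂, h2⟩ := eventually_atTop.mp ((Q97.MM.log_div_tendsto a).eventually
      (gt_mem_nhds (show (0 : ℝ) < 1 / 4 by norm_num)))
    refine ⟨max T₁ T₂, fun T hT U hU hUT => ?_⟩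
    have hT3 : 3 ≤ T := h3.trans ((le_max_left _ _).trans hT)
    have hA := hadm T U hT3 hU hUT
    have h4 := abs_lt.mp (h2 T ((le_max_right _ _).trans hT))
    refine ⟨Q97.RB.MB_integrable hβ hA.pos (by linarith) hA.le (by linarith [h4.1])
      (by linarith [h4.2]), ?_⟩
    rw [hJ0]
    exact h1 T ((le_max_left _ _).trans hT) U hA
  · obtain ⟨T₁, h3, h1⟩ := hpos β hβ
    obtain ⟨T₂, h2⟩ := eventually_atTop.mp (Q97.RG.lower hβ a hε)
    refine ⟨max T₁ T₂, fun T hT U hU hUT => ?_⟩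
    have hT3 : 3 ≤ T := h3.trans ((le_max_left _ _).trans hT)
    have hA := hadm T U hT3 hU hUT
    rw [hJ, hJ0, le_div_iff₀ (h1 T ((le_max_left _ _).trans hT) U hA)]
    have := h2 T ((le_max_right _ _).trans hT) U hA
    rwa [neg_div] at this
  · have hβ0 : 0 < β := by linarith
    obtain ⟨T₁, h3, h1⟩ := hpos β hβ0
    obtain ⟨T₂, h2⟩ := eventually_atTop.mp (Q97.RG.upper hβ a hε)
    refine ⟨max T₁ T₂, fun T hT U hU hUT => ?_⟩
    have hT3 : 3 ≤ T := h3.trans ((le_max_left _ _).trans hT)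
    have hA := hadm T U hT3 hU hUT
    rw [hJ, hJ0, hS, div_le_iff₀ (h1 T ((le_max_left _ _).trans hT) U hA)]
    exact h2 T ((le_max_right _ _).trans hT) U hA
  · rw [hS, Q97.RG.kon_even]

end Pool.Agent.Results.MP_973905_nt.SharpOffTheLine
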